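import Pool.Agent.H21.RatLow

set_option autoImplicit false

open Filter Asymptotics

namespace Pool.Agent.Results.MP_275d83_lc.Intermediate

/-- `m(A)`: the length of a shortest word of `L` accepted by `A`, and `0` if there is none
(`sInf ∅ = 0` in `ℕ`). -/
noncomputable def shortest {α σ : Type} (L : Language α) (A : NFA α σ) : ℕ :=
  sInf {k : ℕ | ∃ w : List α, w ∈ L ∧ w ∈ A.accepts ∧ w.length = k}

/-- The set of all values `m(A)` where `A` runs over the nondeterministic finite automata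
with exactly `n` states. -/
def indexValues {α : Type} (L : Language α) (n : ℕ) : Set ℕ :=
  {m : ℕ | ∃ (σ : Type) (_ : Fintype σ) (A : NFA α σ), Fintype.card σ = n ∧ m = shortest L A}

/-- The rational index of `L`: the maximum of `m(A)` over all `n`-state automata. -/
noncomputable def ratIndex {α : Type} (L : Language α) (n : ℕ) : ℕ := sSup (indexValues L n)

open Pool.Agent.H21.Rat in
/-- There is a context-free language over a finite alphabet whose rational index is
superpolynomial and subexponential. (The first clause about `ratIndex` says that the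
supremum defining it is over a bounded nonempty set, i.e. it is a maximum.) -/
theorem result : ∃ (α : Type) (_ : Fintype α) (L : Language α),
    L.IsContextFree ∧
    (∀ n : ℕ, BddAbove (indexValues L n) ∧ (indexValues L n).Nonempty) ∧
    (∀ k : ℕ, ¬ ((fun n : ℕ => (ratIndex L n : ℝ)) =O[atTop] (fun n : ℕ => (n : ℝ) ^ k))) ∧
    (∀ c : ℝ, 1 < c → ∀ᶠ n : ℕ in atTop, (ratIndex L n : ℝ) < c ^ n) := by
  refine ⟨Lt, inferInstance, G.language, ⟨G, rfl⟩, ?_⟩
  set B : ℕ → ℕ := fun n => (6 * n + 3) +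
    4 * 2 ^ (2 * Nat.sqrt n + 2) * (n + 2 * Nat.sqrt n + 3) with hB
  have hval : ∀ n, ∀ m ∈ indexValues G.language n, m ≤ B n := by
    rintro n m ⟨σ, hσ, A, hcard, rfl⟩
    unfold shortest
    by_cases h1 : ∃ w, Err w ∧ w ∈ A.accepts
    · obtain ⟨w, g1, g2, g3⟩ := short_err A h1
      refine le_trans (Nat.sInf_le ⟨w, (mem_iff w).mpr (Or.inl g1), g2, rfl⟩) ?_
      rw [hcard] at g3
      simp only [hB]; omega
    · have hno : ∀ w, Err w → w ∉ A.accepts := fun w g1 g2 => h1 ⟨w, g1, g2⟩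
      by_cases h2 : ∃ w, Good w ∧ w ∈ A.accepts
      · obtain ⟨w, g1, g2, g3⟩ := short_good A hno h2
        refine le_trans (Nat.sInf_le ⟨w, (mem_iff w).mpr (Or.inr g1), g2, rfl⟩) ?_
        rw [hcard] at g3
        simp only [hB]; omega
      · have : {k : ℕ | ∃ w : List Lt, w ∈ G.language ∧ w ∈ A.accepts ∧ w.length = k} = ∅ := by
          rw [Set.eq_empty_iff_forall_notMem]
          rintro k ⟨w, g1, g2, g3⟩
          rcases (mem_iff w).mp g1 with g4 | g4
          · exact h1 ⟨w, g4, g2⟩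
          · exact h2 ⟨w, g4, g2⟩
        rw [this, Nat.sInf_empty]
        exact Nat.zero_le _
  have hne : ∀ n, (indexValues G.language n).Nonempty := fun n =>
    ⟨_, Fin n, inferInstance, ⟨fun _ _ => ∅, ∅, ∅⟩, Fintype.card_fin n, rfl⟩
  have hbdd : ∀ n, BddAbove (indexValues G.language n) := fun n => ⟨B n, hval n⟩
  refine ⟨fun n => ⟨hbdd n, hne n⟩, ?_, ?_⟩
  · -- superpolynomial
    intro k hO
    have hlow : ∀ h : ℕ, 1 ≤ h → 2 ^ (h - 1) ≤ ratIndex G.language (2 * (h + 1) ^ 2) := by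
      intro h hh
      obtain ⟨⟨w0, g1, g2⟩, g3⟩ := low h hh
      have hmem : shortest G.language (NF h) ∈ indexValues G.language (2 * (h + 1) ^ 2) := by
        refine ⟨FSt h, inferInstance, NF h, ?_, rfl⟩
        simp only [FSt, Fintype.card_prod, Fintype.card_fin, Fintype.card_bool]
        ring
      refine le_trans ?_ (le_csSup (hbdd _) hmem)
      have hne' : {k : ℕ | ∃ w : List Lt, w ∈ G.language ∧ w ∈ (NF h).accepts ∧
          w.length = k}.Nonempty := ⟨_, w0, (mem_iff w0).mpr g1, g2, rfl⟩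
      obtain ⟨w, e1, e2, e3⟩ := Nat.sInf_mem hne'
      unfold shortest
      rw [← e3]
      exact g3 w ((mem_iff w).mp e1) e2
    obtain ⟨C, hC⟩ := hO.bound
    obtain ⟨N, hN⟩ := eventually_atTop.mp hC
    have ht : Tendsto (fun m : ℕ => (m : ℝ) ^ (2 * k) / (2 : ℝ) ^ m) atTop (nhds 0) :=
      tendsto_pow_const_div_const_pow_of_one_lt (2 * k) (by norm_num)
    have hpos : (0 : ℝ) < 1 / (4 * (|C| + 1) * 2 ^ k) := by positivity
    have hev := (ht.eventually (gt_mem_nhds hpos))
    obtain ⟨M, hM⟩ := eventually_atTop.mp hev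
    set m := max (max M N) 2 with hm
    have hm2 : 2 ≤ m := le_max_right _ _
    have hmM : M ≤ m := le_trans (le_max_left _ _) (le_max_left _ _)
    have hmN : N ≤ m := le_trans (le_max_right _ _) (le_max_left _ _)
    have h1 := hM m hmM
    have h2 := hN (2 * m ^ 2) (by nlinarith)
    have h3 := hlow (m - 1) (by omega)
    have e1 : m - 1 + 1 = m := by omega
    rw [e1] at h3
    rw [Real.norm_of_nonneg (Nat.cast_nonneg _), Real.norm_of_nonneg (by positivity)] at h2
    have h4 : (2 : ℝ) ^ (m - 1 - 1) ≤ (ratIndex G.language (2 * m ^ 2) : ℝ) := by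
      exact_mod_cast h3
    have e2 : (2 : ℝ) ^ m = 4 * 2 ^ (m - 1 - 1) := by
      obtain ⟨j, hj⟩ : ∃ j, m = j + 2 := ⟨m - 2, by omega⟩
      rw [hj]
      have : j + 2 - 1 - 1 = j := by omega
      rw [this, pow_add]; ring
    have e3 : (((2 * m ^ 2 : ℕ) : ℝ)) ^ k = 2 ^ k * (m : ℝ) ^ (2 * k) := by
      push_cast
      rw [mul_pow, ← pow_mul]
    rw [e3] at h2
    have h5 : (m : ℝ) ^ (2 * k) < 2 ^ m * (1 / (4 * (|C| + 1) * 2 ^ k)) := by
      rw [div_lt_iff₀ (by positivity)] at h1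
      linarith
    have h6 : (2 : ℝ) ^ m * (1 / (4 * (|C| + 1) * 2 ^ k))
        = 2 ^ (m - 1 - 1) / ((|C| + 1) * 2 ^ k) := by
      rw [e2]; field_simp
    rw [h6, lt_div_iff₀ (by positivity)] at h5
    have h7 : C * (2 ^ k * (m : ℝ) ^ (2 * k)) ≤ (|C| + 1) * (2 ^ k * (m : ℝ) ^ (2 * k)) := by
      apply mul_le_mul_of_nonneg_right _ (by positivity)
      have := le_abs_self C
      linarith
    nlinarith
  · -- subexponential
    intro c hc
    have hle : ∀ n, ratIndex G.language n ≤ B n := fun n => csSup_le (hne n) (hval n)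
    have hs1 : ∀ s : ℕ, s ^ 2 + 4 * s + 3 ≤ 8 * 2 ^ s := by
      intro s
      induction s with
      | zero => norm_num
      | succ s ih =>
        have h1 : 2 * s + 5 ≤ 8 * 2 ^ s := by
          have : s < 2 ^ s := Nat.lt_two_pow_self
          omega
        have h2 : (2 : ℕ) ^ (s + 1) = 2 * 2 ^ s := by ring
        rw [h2]
        nlinarith
    have hBs : ∀ n, B n ≤ 256 * 8 ^ (Nat.sqrt n) := by
      intro n
      set s := Nat.sqrt n with hs
      have h1 : n ≤ s * s + s + s := Nat.sqrt_le_add n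
      have h2 := hs1 s
      have h3 : (2 : ℕ) ^ s ≤ 8 ^ s := Nat.pow_le_pow_left (by norm_num) s
      have h4 : (2 : ℕ) ^ (2 * s + 2) = 4 * 4 ^ s := by
        rw [pow_add, pow_mul]; norm_num; ring
      have h5 : (8 : ℕ) ^ s = 4 ^ s * 2 ^ s := by rw [← mul_pow]; norm_num
      have h6 : B n = (6 * n + 3) + 4 * (4 * 4 ^ s) * (n + 2 * s + 3) := by
        simp only [hB]; rw [← hs, h4]
      rw [h6]
      have h7 : n + 2 * s + 3 ≤ 8 * 2 ^ s := by nlinarith
      have h8 : 4 * (4 * 4 ^ s) * (n + 2 * s + 3) ≤ 4 * (4 * 4 ^ s) * (8 * 2 ^ s) :=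
        Nat.mul_le_mul_left _ h7
      have h9 : 4 * (4 * 4 ^ s) * (8 * 2 ^ s) = 128 * 8 ^ s := by rw [h5]; ring
      have h10 : 6 * n + 3 ≤ 48 * 8 ^ s := by omega
      omega
    have ht := tendsto_pow_atTop_atTop_of_one_lt hc
    obtain ⟨S0, hS0⟩ := eventually_atTop.mp (ht.eventually_ge_atTop 16)
    refine eventually_atTop.mpr ⟨(max S0 9) ^ 2, fun n hn => ?_⟩
    set s := Nat.sqrt n with hs
    have hs0 : max S0 9 ≤ s := by
      rw [hs, Nat.le_sqrt', ]
      exact hn
    have h1 : (16 : ℝ) ≤ c ^ s := hS0 s (le_trans (le_max_left _ _) hs0)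
    have h9 : 9 ≤ s := le_trans (le_max_right _ _) hs0
    have h2 : s * s ≤ n := Nat.sqrt_le n
    have h3 : (16 : ℝ) ^ s ≤ c ^ n := by
      calc (16 : ℝ) ^ s ≤ (c ^ s) ^ s := pow_le_pow_left₀ (by norm_num) h1 s
        _ = c ^ (s * s) := by rw [← pow_mul]
        _ ≤ c ^ n := pow_le_pow_right₀ hc.le h2
    have h4 : (ratIndex G.language n : ℝ) ≤ 256 * 8 ^ s := by
      exact_mod_cast (hle n).trans (hBs n)
    have h5 : (256 : ℝ) * 8 ^ s < 16 ^ s := by
      have e : (16 : ℝ) ^ s = 2 ^ s * 8 ^ s := by rw [← mul_pow]; norm_num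
      rw [e]
      apply mul_lt_mul_of_pos_right _ (by positivity)
      calc (256 : ℝ) < 2 ^ 9 := by norm_num
        _ ≤ 2 ^ s := pow_le_pow_right₀ (by norm_num) h9
    linarith

end Pool.Agent.Results.MP_275d83_lc.Intermediate
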